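import Pool.Agent.J6H11.Hlp.Amh

/-!
# coNP versus Arthur-Merlin games for verifiers with many non-monotone inputs

`Level g s 1 false f` (in `Pool.Agent.J6H27.MPH.Defs`): the predicate `f` is of the form
`f x ↔ ∀ u, C_u(x) = 1`, where `u` ranges over the strings of `g` bits and every `C_u` is a
monotone circuit with at most `s` gates. These are the devices of coNP.

`Game g s k v` (in `Pool.Agent.J6H27.MPH.Game`): `v x` is the probability of acceptance, on the
input `x`, of an Arthur-Merlin game with `k` rounds. In every round Arthur sends a random message
and Merlin answers with a string of `g` bits, which maximizes the probability of acceptance; after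
the last round Arthur chooses at random a monotone circuit with at most `s` gates, and accepts if
it accepts `x`. (The random choices may have any distributions on finite sets, and they, as well
as the final circuit, may depend in an arbitrary way on the earlier messages.)

`Help a help` (in `Pool.Agent.J6H11.Hlp.Dev`): the numbers `help x j`, `j < T`, modulo a prime `p`
are sums with arbitrary weights of nodes of depth at most `a` of a circuit with at most `N ^ a` gates,
which are negations and conjunctions and disjunctions of arbitrary fan-in. So these are `T`
arbitrary non-monotone predicates of the class `MOD_p ∘ AC⁰`, for instance arbitrary parities of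
variables or of polynomially many conjunctions of literals, or `T` of the variables.

The theorem says that coNP is not contained in IP(2), and not in IP(2k), for verifiers which are
monotone, except that the whole game (the distributions of Arthur's messages and the final circuits)
may depend in an arbitrary way on `N ^ (1 - ε)` arbitrary predicates of this kind, and messages of
Merlin with `N ^ δ` bits.

Proof. The functions are those of `MonotoneArthurMerlin` of the majorities of `N ^ δ` blocks of
variables. For each `help` there is a monotone projection which keeps these functions and makes all
the numbers `help x j` constant (theorem `transferH`): a random restriction (switching lemma) turns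
them into polynomials of constant degree, and the theorem of Chevalley and Warning gives, block after
block, a nonempty set of free variables such that the polynomials do not change if its values are
changed to one.
-/

set_option autoImplicit false

namespace Pool.Agent.Results.MP_d404e6_lc.ArthurMerlinWithHelp

open Filter Pool.Agent.J6H27.MPH Pool.Agent.J6H11.Hlp

/-- **coNP is not contained in IP(2k) for verifiers with many non-monotone inputs.** For all `k`,
`ε > 0` and `a` there are `δ > 0` and functions `f N` of `N` variables such that for all large `N`
the function `f N` is of the form `∀ u : C_u(x) = 1` with strings `u` of `(log N) ^ 3` bits and with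
monotone circuits `C_u` with `N ^ 3` gates, but for all `c` and all large `N` the following holds.
Let `help` be `T ≤ N ^ (1 - ε)` arbitrary non-monotone predicates of the class `MOD_p ∘ AC⁰` (depth
`a`, at most `N ^ a` gates, `p ≤ N ^ δ` prime), and for each possible value `w` of `help` let `v w`
be an Arthur-Merlin game with `k` rounds in which Merlin sends messages of at most `N ^ δ` bits and
Arthur uses monotone circuits with `N ^ c` gates. Then the game in which `v (help x)` is played on
the input `x` does not tell the inputs with `f N x` from the others: there is no number `α` such
that Arthur accepts all inputs with `f N x` with probability at least `α + N ^ (- δ)` and all others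
with probability at most `α`. -/
theorem result (k : ℕ) (ε : ℝ) (hε : 0 < ε) (a : ℕ) :
    ∃ (δ : ℝ) (f : ∀ N : ℕ, (Fin N → Bool) → Prop), 0 < δ ∧
      (∀ᶠ N : ℕ in atTop, Level (Nat.log 2 N ^ 3) (N ^ 3) 1 false (f N)) ∧
      ∀ c : ℕ, ∀ᶠ N : ℕ in atTop, ∀ (p : ℕ) [Fact p.Prime] (T : ℕ)
        (help : (Fin N → Bool) → Fin T → ZMod p) (g : ℕ)
        (v : (Fin T → ZMod p) → (Fin N → Bool) → ℝ),
        (p : ℝ) ≤ (N : ℝ) ^ δ → (T : ℝ) ≤ (N : ℝ) ^ (1 - ε) → Help a help →
        (g : ℝ) ≤ (N : ℝ) ^ δ → (∀ w, Game g (N ^ c) k (v w)) →
        ∀ α : ℝ, ¬ ((∀ x, f N x → α + (N : ℝ) ^ (-δ) ≤ v (help x) x) ∧
          ∀ x, ¬ f N x → v (help x) x ≤ α) :=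
  game_help k ε hε a

end Pool.Agent.Results.MP_d404e6_lc.ArthurMerlinWithHelp
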