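import Pool.Agent.J6H31.AX.Final

/-!
# `coNP` is hard on average for interactive proofs with side oracles of subexponential density,
relative to nearly collapsed oracles

If `P = PSPACE` then `coNP` is contained in `IP(2)` (and even in `P`), and this relativizes. We show
that for relativizing proofs this assumption cannot be weakened, even if the interactive proofs are
only required to work for a little more than one half of the inputs: for an arbitrarily slowly
growing unbounded function `α` there are oracles relative to which polynomial space is contained in
deterministic time `n ^ O(α n)`, and likewise for exponential and double exponential space, and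
nevertheless there is a language in `coNP` (whose complement is decided with `μ n` guessed bits,
where `μ n` is any function with `ω(log n) ≤ μ n ≤ n`) such that every interactive proof with
polynomially many rounds and private coins, whose verifier may ask questions to any set `T` of
subexponential density, is correct for at most `(1 / 2 + 2 ^ (- min (n / 5, μ n / 3))) * 2 ^ n` of
the strings of length `n`, for all large `n`.

The proof: a string `x` is in the complement if one of about `2 ^ μ n * log 2` blocks of `μ n`
random bits consists of ones only. Let `S` be a random set of strings `x` of length `n`, of density
slightly less than `2 ^ (- n / 5)`. For most `x` in `S` the conversation with the best prover asks no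
question about the blocks of the other elements of `S`. If all the bits which do not belong to
elements of `S` are fixed, then the inputs `x` in `S` for which this holds and the verifier is correct
are covered by independent events, one for every `x` in `S`, with probability hardly more than one
half; so their number is concentrated. (For non-monotone verifiers one has to consider the best
provers among those whose conversations avoid the blocks of the other elements of `S`.)
-/

set_option autoImplicit false

namespace Pool.Agent.Results.MP_d404e6_lc.AverageInteractive

open MeasureTheory Pool.Agent.NPC Pool.Agent.H628R3.RO Pool.Agent.J6H49.OP Pool.Agent.J6H49.IP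
open Pool.Agent.TH678.GC (join)

/-- The number of the strings `x` of length `n` for which the interactive proof with verifier `V`,
with `p n` rounds, private random strings of length `p n` and answers of length at most `p n`, is
correct for the language `L` (with the thresholds `2 / 3` and `1 / 3`). -/
noncomputable def correct (V : List Bool → List Bool) (p : Polynomial ℕ) (L : Set (List Bool))
    (n : ℕ) : ℕ :=
  Set.ncard {x : List Bool | x.length = n ∧ CorrectAt V p L x}

/-- Let `α : ℕ → ℕ` be nondecreasing and unbounded, let `C` be any oracle and let `μ : ℕ → ℕ` be a
function with `μ n ≤ n` which is larger than any constant multiple of `log n` for all large `n`.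
There is a map `O` on the oracles such that `O A` contains `A` and `C` and is nearly collapsed with
the function `α`, for every `A`, and for a random oracle `A` (fair coin tosses), with probability
one, there is a language `L` in `coNP` relative to `O A`, whose complement is decided by a
nondeterministic machine with `μ n` guessed bits for the inputs of length `n`, such that for every
set `T` of subexponential density, every verifier `V` working in polynomial time with the oracles
`O A` and `T` and every polynomial `p`, for all large `n` the interactive proof is correct for `L`
for at most `2 ^ n / 2 + 2 ^ n / 2 ^ min (n / 5) (μ n / 3)` strings of length `n`. -/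
theorem result (α : ℕ → ℕ) (hα : Monotone α) (hα' : Filter.Tendsto α Filter.atTop Filter.atTop)
    (C : Oracle) (μ : ℕ → ℕ) (hμ : ∀ n, μ n ≤ n)
    (hμ' : ∀ c : ℕ, ∀ᶠ n : ℕ in Filter.atTop, n ^ c ≤ 2 ^ μ n) :
    ∃ O : Oracle → Oracle,
      (∀ A, NearlyCollapsed α (O A) ∧ Contains (O A) A ∧ Contains (O A) C) ∧
      ∀ᵐ A ∂randomOracle, ∃ L : Set (List Bool), IsCoNP (O A) L ∧
        (∃ W : List Bool → List Bool, IsFP (O A) W ∧ ∀ x, x ∉ L ↔
          ∃ y : List Bool, y.length = μ x.length ∧ W (pairBits x y) = [true]) ∧
        ∀ T : Oracle, SubexpDense T → ∀ V : List Bool → List Bool, IsFP (join (O A) T) V →
          ∀ p : Polynomial ℕ, ∀ᶠ n : ℕ in Filter.atTop,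
            (correct V p L n : ℝ) ≤ 2 ^ n / 2 + 2 ^ n / 2 ^ min (n / 5) (μ n / 3) := by
  obtain ⟨O, h1, h2⟩ := Pool.Agent.J6H31.AX.main α hα hα' C μ hμ hμ'
  refine ⟨O, h1, ?_⟩
  filter_upwards [h2] with A hA
  obtain ⟨L, hL1, ⟨W, hW, hL2⟩, hL3⟩ := hA
  refine ⟨Lᶜ, ?_, ⟨W, hW, fun x => ?_⟩, hL3⟩
  · unfold IsCoNP
    rw [compl_compl]
    exact hL1
  · rw [Set.mem_compl_iff, not_not]
    exact hL2 x

end Pool.Agent.Results.MP_d404e6_lc.AverageInteractive
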