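import Pool.Agent.J6H20.IM.Main

/-!
# Sets in `coNP` which are immune for interactive proofs

For an arbitrarily slowly growing unbounded function `α` there is a map `O` on oracles such that
every `O A` contains `A` and is nearly collapsed: relative to `O A` all problems in polynomial space
are decided in deterministic time `n ^ O(α n)`, all problems in space `2 ^ O(n)` in time
`2 ^ O(n * α n)`, all problems in space `2 ^ O(2 ^ n)` in time `2 ^ O(2 ^ n * α n)`. Nevertheless,
for a random oracle `A`, almost surely, some tally set `L` in `coNP` relative to `O A` is infinite
and has no infinite subset with an interactive proof, and some tally set `M` in `NP` is infinite and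
has no infinite subset whose complement has an interactive proof. Moreover `L` and `M` are disjoint,
and their union is in `P`.

Idea of the proof. One root `0 ^ n` for every length `n` of a tower; it is hit if some block `y` of
length `n` is continued by the block of ones in the oracle. If the verifier accepts, for some prover,
although the root is not hit, then a hit at a random place changes few of the conversations; hence
the probability that the root is not hit and the verifier accepts is at most twice the probability
that it is hit and the verifier does not reject. Conversely, raising the blocks independently, the
probability that the root is hit and the verifier rejects is at most three times the probability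
that it is not hit and the verifier does not accept, up to an exponentially small error. A
conditional Borel-Cantelli argument along the tower shows that, almost surely, the first event
happens only finitely often, unless the second happens infinitely often.
-/

set_option autoImplicit false

namespace Pool.Agent.Results.MP_d404e6_lc.ImmuneSets

open Pool.Agent.NPC Pool.Agent.H628R3.RO Pool.Agent.J6H49.OP Pool.Agent.J6H49.IP
open Pool.Agent.J6H20.IM

/-- Let `α : ℕ → ℕ` be nondecreasing and unbounded and let `C` be any oracle. There is a map `O` on
oracles such that `O A` contains `A` and `C` and is nearly collapsed with the function `α`, for all
`A`, and such that for almost all `A` there are disjoint sets `L` and `M` of strings of zeros, whose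
union is in `P` relative to `O A`, such that `L` is in `coNP` and immune for `IP`, and `M` is in `NP`
and immune for the complements of the languages in `IP`, all relative to `O A`. -/
theorem result (α : ℕ → ℕ) (hα : Monotone α) (hα' : Filter.Tendsto α Filter.atTop Filter.atTop)
    (C : Oracle) : ∃ O : Oracle → Oracle,
      (∀ A, NearlyCollapsed α (O A) ∧ Contains (O A) A ∧ Contains (O A) C) ∧
      ∀ᵐ A ∂randomOracle, ∃ L M : Set (List Bool),
        L ⊆ zeros ∧ M ⊆ zeros ∧ Disjoint L M ∧ IsP (O A) (L ∪ M) ∧
        IsCoNP (O A) L ∧ IsNP (O A) M ∧
        Immune (IsIP (O A)) L ∧ Immune (fun T => IsIP (O A) Tᶜ) M := by
  obtain ⟨O, h1, h2⟩ := Pool.Agent.J6H20.IM.main α hα hα' C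
  refine ⟨O, h1, ?_⟩
  filter_upwards [h2] with A hA
  exact hA.1

end Pool.Agent.Results.MP_d404e6_lc.ImmuneSets
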