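import Pool.Agent.J6H27.MPH.Game5

/-!
# coNP versus Arthur-Merlin games, for short messages

`Level g s 1 false f` (in `Pool.Agent.J6H27.MPH.Defs`): the predicate `f` is of the form
`f x ↔ ∀ u, C_u(x) = 1`, where `u` ranges over the strings of `g` bits and every `C_u` is a
monotone circuit with at most `s` gates. These are the devices of coNP.

`Game g s k v` (in `Pool.Agent.J6H27.MPH.Game`): `v x` is the probability of acceptance, on the
input `x`, of an Arthur-Merlin game with `k` rounds. In every round Arthur sends a random message
and Merlin answers with a string of `g` bits, which maximizes the probability of acceptance; after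
the last round Arthur chooses at random a monotone circuit with at most `s` gates, and accepts if
it accepts `x`. (The random choices may have any distributions on finite sets, and they, as well
as the final circuit, may depend in an arbitrary way on the earlier messages.) These are the
devices of IP(2k).
-/

set_option autoImplicit false

namespace Pool.Agent.Results.MP_d404e6_lc.MonotoneArthurMerlin

open Filter Pool.Agent.J6H27.MPH

/-- **coNP is not contained in IP(2), and not even in IP(2 (log log N) ^ 2), for short messages and
monotone verifiers.** For every function `k` with `k N ≤ (log log N) ^ 2` (for instance a constant)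
there are functions `f N` of `N` variables such that for all large `N` the function `f N` is of the
form `∀ u : C_u(x) = 1` with strings `u` of `(log N) ^ 3` bits and with monotone circuits `C_u`
with `(log N) ^ 3` gates, but for all `c` and all large `N`, no Arthur-Merlin game with `k N`
rounds in which Merlin sends messages of at most `N ^ δ` bits, `δ = 1 / (16 (k N + 3))`, and Arthur
uses monotone circuits with `N ^ c` gates tells the inputs with `f N x` from the others: there is
no number `α` such that Arthur accepts all inputs with `f N x` with probability at least
`α + N ^ (- δ)` and all others with probability at most `α`. -/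
theorem result (k : ℕ → ℕ) (hk : ∀ᶠ N : ℕ in atTop, k N ≤ Nat.log 2 (Nat.log 2 N) ^ 2) :
    ∃ f : ∀ N : ℕ, (Fin N → Bool) → Prop,
      (∀ᶠ N : ℕ in atTop, Level (Nat.log 2 N ^ 3) (Nat.log 2 N ^ 3) 1 false (f N)) ∧
      ∀ c : ℕ, ∀ᶠ N : ℕ in atTop, ∀ (g : ℕ) (v : (Fin N → Bool) → ℝ),
        (g : ℝ) ≤ (N : ℝ) ^ (1 / (16 * (k N + 3 : ℕ)) : ℝ) → Game g (N ^ c) (k N) v →
        ∀ α : ℝ, ¬ ((∀ x, f N x → α + (N : ℝ) ^ (-(1 / (16 * (k N + 3 : ℕ))) : ℝ) ≤ v x) ∧
          ∀ x, ¬ f N x → v x ≤ α) :=
  am_rounds k hk

end Pool.Agent.Results.MP_d404e6_lc.MonotoneArthurMerlin
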